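import Pool.Agent.W93.AU14

/-!
# Autocorrelations of the Möbius function with a shift from an automatic set

The exponential sum bounds for the Möbius function (Davenport's theorem with arbitrary powers of the
logarithm) are from the starting files (`Pool.Agent.H807R2.Dav`, `Pool.Agent.H373R2.T7`).
From Mathlib: `DFA ℕ σ`: the deterministic automata with the set of states `σ` and the alphabet `ℕ`;
`M.accepts`: the set of the words accepted by `M`; `Nat.digits b v`: the digits of `v` in base `b`, from the
least significant to the most significant one.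
-/

set_option autoImplicit false

namespace Pool.Agent.Results.MP_c59857_nt.AutomaticShifts

open Finset

/-- The Möbius function on the integers, `0` at the integers `m ≤ 0`, with complex values. -/
noncomputable def mu (m : ℤ) : ℂ := ((ArithmeticFunction.moebius m.toNat : ℤ) : ℂ)

open Classical in
/-- The number of the integers `0 ≤ v < N` with the property `E` whose base `b` digits are accepted by the
automaton `M`. -/
noncomputable def num {σ : Type} (b : ℕ) (M : DFA ℕ σ) (N : ℕ) (E : ℕ → Prop) : ℝ :=
  (((range N).filter fun v => Nat.digits b v ∈ M.accepts ∧ E v).card : ℝ)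

/-- Let `S` be a `b`-automatic set: the set of the integers `v ≥ 0` whose base `b` digits are accepted by a finite
automaton `M`. Suppose that `S` is not sparse: the number of the elements of `S` below `N` is not bounded by a power of
`log N`. Let `κ ≠ 0`, `B`, `T` and `U` be fixed. Let `N` be large, let `c` be an integer with `|c| ≤ B N`, and let
`g l : ℕ → ℂ`, where `l` ranges over at most `log ^ T N` indices, be arbitrary functions bounded by `1` (for example
products `∏ i, μ (n + α i) ^ ε i` with arbitrary shifts `α i` and exponents `ε i ∈ {1, 2}`). Then all the elements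
`v < N` of `S` with at most `#(S ∩ [0, N)) / log ^ U N` exceptions have the following property: the shift
`α = c + κ v` satisfies `|∑ n ≤ x, g l n * μ (n + α)| ≤ N / log ^ U N` for all `l` and all `x ≤ B N`. -/
theorem result {σ : Type} [Finite σ] (b : ℕ) (hb : 2 ≤ b) (M : DFA ℕ σ)
    (hM : ∀ k : ℕ, ∃ᶠ N : ℕ in Filter.atTop, Real.log N ^ k < num b M N (fun _ => True))
    (κ : ℤ) (hκ : κ ≠ 0) (B T U : ℕ) :
    ∃ N₀ : ℕ, ∀ N, N₀ ≤ N → ∀ c : ℤ, |c| ≤ B * N →
      ∀ L : ℕ, (L : ℝ) ≤ Real.log N ^ T → ∀ g : Fin L → ℕ → ℂ, (∀ l n, ‖g l n‖ ≤ 1) →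
        num b M N (fun v => ¬ ∀ l, ∀ x : ℕ, x ≤ B * N →
          ‖∑ n ∈ Icc 1 x, g l n * mu (n + (c + κ * v))‖ ≤ N / Real.log N ^ U) ≤
          num b M N (fun _ => True) / Real.log N ^ U := by
  classical
  have := Fintype.ofFinite σ
  have hnum : ∀ N, num b M N (fun _ => True) = (((range N).filter fun v => Nat.digits b v ∈ M.accepts).card : ℝ) := by
    intro N
    unfold num
    congr 2
    ext v
    simp only [mem_filter, and_true]
  obtain ⟨N₀, h⟩ := Pool.Agent.W93.AU.au_corr b hb M (fun k => (hM k).mono fun N hN => by rw [hnum] at hN; exact hN)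
    Pool.Agent.H373R2.T7.muC Pool.Agent.W93.LM.nice_muC κ hκ B T U
  refine ⟨N₀ + 3, fun N hN c hc L hL g hg => ?_⟩
  have hlog1 : 1 ≤ Real.log N := by
    rw [Real.le_log_iff_exp_le (by exact_mod_cast (by omega : 0 < N))]
    have : (3 : ℝ) ≤ N := by exact_mod_cast (by omega : 3 ≤ N)
    linarith [Real.exp_one_lt_d9]
  have h1 := h N (by omega) c hc L hL (fun l => if h : l < L then g ⟨l, h⟩ else fun _ => 0) (by
    intro l hl n _ _
    simp only [hl, dif_pos]
    exact (hg _ n).trans (one_le_pow₀ hlog1))
    (fun v => ¬ ∀ l, ∀ x : ℕ, x ≤ B * N →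
          ‖∑ n ∈ Icc 1 x, g l n * mu (n + (c + κ * v))‖ ≤ N / Real.log N ^ U) (by
    intro v hv
    push Not at hv
    obtain ⟨l, x, hx, h2⟩ := hv
    refine ⟨l, l.2, x, hx, lt_of_lt_of_eq h2 ?_⟩
    simp only [l.2, dif_pos]
    congr 1
    apply sum_congr rfl
    intro n _
    congr 1
    unfold Pool.Agent.H373R2.T7.exI mu
    split_ifs with h3
    · rfl
    · rw [Int.toNat_of_nonpos (by omega)]
      simp)
  rw [hnum]
  refine le_trans (le_of_eq ?_) h1
  unfold num
  congr 2

end Pool.Agent.Results.MP_c59857_nt.AutomaticShifts
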