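import Pool.Agent.W134.OddMu

/-!
Chowla products of the Möbius function with an odd number of exponents equal to one: both signs
have a proportion bounded below uniformly in the shifts, which may be as large as a constant times
`N`, in every residue class on which the product does not vanish identically.
-/

set_option autoImplicit false

namespace Pool.Agent.Results.MP_c59857_nt.OddOrderUniform

open Finset

/-- The product `μ(n + α_1)^{ε_1} ⋯ μ(n + α_r)^{ε_r}` of the problem (with `μ(m) = 0` for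
`m ≤ 0`). -/
def P {r : ℕ} (α : Fin r → ℤ) (ε : Fin r → ℕ) (n : ℕ) : ℤ :=
  ∏ i : Fin r, ArithmeticFunction.moebius (((n : ℤ) + α i).toNat) ^ ε i

theorem mu_values (m : ℕ) : ArithmeticFunction.moebius m = 0 ∨ ArithmeticFunction.moebius m = 1 ∨
    ArithmeticFunction.moebius m = -1 := by
  by_cases hm : Squarefree m
  · rw [ArithmeticFunction.moebius_apply_of_squarefree hm]
    exact Or.inr (neg_one_pow_eq_or ℤ _)
  · exact Or.inl (ArithmeticFunction.moebius_eq_zero_of_not_squarefree hm)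

theorem P_values {r : ℕ} (α : Fin r → ℤ) (ε : Fin r → ℕ) (n : ℕ) :
    P α ε n = 0 ∨ P α ε n = 1 ∨ P α ε n = -1 := by
  unfold P
  induction (univ : Finset (Fin r)) using Finset.induction_on with
  | empty => simp
  | insert i s hi ih =>
    rw [Finset.prod_insert hi]
    have h1 : ∀ (x : ℤ) (e : ℕ), (x = 0 ∨ x = 1 ∨ x = -1) → (x ^ e = 0 ∨ x ^ e = 1 ∨ x ^ e = -1) := by
      rintro x e (rfl | rfl | rfl)
      · rcases Nat.eq_zero_or_pos e with h | h
        · rw [h]; simp
        · rw [zero_pow h.ne']; simp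
      · simp
      · exact Or.inr (neg_one_pow_eq_or ℤ e)
    rcases h1 _ (ε i) (mu_values (((n : ℤ) + α i).toNat)) with h | h | h <;>
      rcases ih with h' | h' | h' <;> rw [h, h'] <;> norm_num

/-- a sum of signs in terms of the two counts -/
theorem sum_le (s : Finset ℕ) (f : ℕ → ℤ) (hf : ∀ n, f n = 0 ∨ f n = 1 ∨ f n = -1) (t : ℝ)
    (h1 : t ≤ ((s.filter (fun n => f n = 1)).card : ℝ))
    (h2 : t ≤ ((s.filter (fun n => f n = -1)).card : ℝ)) :
    |∑ n ∈ s, (f n : ℝ)| ≤ ∑ n ∈ s, |(f n : ℝ)| - 2 * t := by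
  have e1 : ∑ n ∈ s, (f n : ℝ) + ∑ n ∈ s, |(f n : ℝ)| =
      2 * ((s.filter (fun n => f n = 1)).card : ℝ) := by
    rw [← Finset.sum_add_distrib, ← Finset.sum_boole, Finset.mul_sum]
    refine Finset.sum_congr rfl fun n _ => ?_
    rcases hf n with h | h | h <;> rw [h] <;> norm_num
  have e2 : ∑ n ∈ s, |(f n : ℝ)| - ∑ n ∈ s, (f n : ℝ) =
      2 * ((s.filter (fun n => f n = -1)).card : ℝ) := by
    rw [← Finset.sum_sub_distrib, ← Finset.sum_boole, Finset.mul_sum]
    refine Finset.sum_congr rfl fun n _ => ?_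
    rcases hf n with h | h | h <;> rw [h] <;> norm_num
  rw [abs_le]
  constructor <;> linarith

/-- **Chowla products with an odd number of exponents `1`: both signs, uniformly in the shifts.**
For all `r` and `q ≥ 1` there are `c > 0` and `N₀` such that for all `N ≥ N₀`, all integers
`α_1, …, α_r` with `|α_i| ≤ c N`, all `ε ∈ {1,2}^r` with an odd number of `ε_i = 1` and every residue
class `b mod q`: either `μ(n + α_1)^{ε_1} ⋯ μ(n + α_r)^{ε_r} = 0` for all `n ≥ 1` in the class, or
each of the values `1` and `-1` is taken for at least `c N` integers `n ≤ N` of the class; in the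
second case the sum over the `n ≤ N` of the class is at most the number of non-zero terms minus
`2 c N`. -/
theorem result : ∀ r q : ℕ, 0 < q → ∃ c : ℝ, 0 < c ∧ ∃ N₀ : ℕ, ∀ N : ℕ, N₀ ≤ N →
    ∀ (α : Fin r → ℤ) (ε : Fin r → ℕ), (∀ i, |(α i : ℝ)| ≤ c * N) →
      (∀ i, ε i = 1 ∨ ε i = 2) → Odd (Finset.univ.filter fun i => ε i = 1).card → ∀ b : ℕ,
      (∀ n : ℕ, 0 < n → n % q = b % q → P α ε n = 0) ∨
      ((∀ σ : ℤ, (σ = 1 ∨ σ = -1) →
          c * N ≤ (((Finset.Icc 1 N).filter fun n => n % q = b % q ∧ P α ε n = σ).card : ℝ)) ∧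
        |∑ n ∈ (Finset.Icc 1 N).filter (fun n => n % q = b % q), (P α ε n : ℝ)| ≤
          (∑ n ∈ (Finset.Icc 1 N).filter (fun n => n % q = b % q), |(P α ε n : ℝ)|) -
            2 * c * N) := by
  classical
  intro r q hq
  have hcore : ∀ I : Finset (Fin r), ∃ δ : ℝ, 0 < δ ∧ ∃ N₀ : ℕ, Odd I.card → ∀ N : ℕ, N₀ ≤ N →
      ∀ b : Fin r → ℕ, (∀ i, (b i : ℝ) ≤ δ * N) → ∀ n₁ : ℕ, (∀ i, Squarefree (n₁ + b i)) →
      ∀ σ : ℤ, (σ = 1 ∨ σ = -1) →
      δ * N ≤ (((Icc 1 N).filter (fun n => n % q = n₁ % q ∧ (∀ i, Squarefree (n + b i)) ∧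
        ∏ i ∈ I, ArithmeticFunction.moebius (n + b i) = σ)).card : ℝ) := by
    intro I
    by_cases hI : Odd I.card
    · obtain ⟨δ, hδ, N₀, h⟩ := Pool.Agent.W134.OddMu.core r q hq I hI
      exact ⟨δ, hδ, N₀, fun _ => h⟩
    · exact ⟨1, one_pos, 0, fun h => absurd h hI⟩
  choose δ hδ N₀ hmain using hcore
  set d : ℝ := univ.inf' univ_nonempty δ with hd
  have hdpos : 0 < d := by
    rw [hd, Finset.lt_inf'_iff]
    exact fun I _ => hδ I
  have hdle : ∀ I, d ≤ δ I := fun I => Finset.inf'_le δ (mem_univ I)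
  set c : ℝ := min (d / 4) (1 / 2) with hc
  have hcpos : 0 < c := lt_min (by linarith) (by norm_num)
  have hc1 : c ≤ d / 4 := min_le_left _ _
  have hc2 : c ≤ 1 / 2 := min_le_right _ _
  refine ⟨c, hcpos, 2 * (univ.sup N₀) + 2, ?_⟩
  intro N hN α ε hα hε hodd b
  set I : Finset (Fin r) := univ.filter fun i => ε i = 1 with hI
  by_cases hzero : ∀ n : ℕ, 0 < n → n % q = b % q → P α ε n = 0
  · exact Or.inl hzero
  right
  push Not at hzero
  obtain ⟨n₀, hn₀pos, hn₀q, hn₀⟩ := hzero
  have hεne : ∀ i, ε i ≠ 0 := by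
    intro i
    rcases hε i with h | h <;> rw [h] <;> norm_num
  have hsq₀ : ∀ i, Squarefree (((n₀ : ℤ) + α i).toNat) := by
    intro i
    unfold P at hn₀
    rw [Finset.prod_ne_zero_iff] at hn₀
    have h1 := hn₀ i (mem_univ i)
    exact ArithmeticFunction.moebius_ne_zero_iff_squarefree.1 (fun h => h1 (by
      rw [h, zero_pow (hεne i)]))
  have hpos₀ : ∀ i, 0 < (n₀ : ℤ) + α i := by
    intro i
    by_contra h
    push Not at h
    have h1 := hsq₀ i
    rw [Int.toNat_of_nonpos h] at h1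
    exact not_squarefree_zero h1
  set m : ℕ := univ.sup (fun i => (-(α i)).toNat) with hm
  have hmi : ∀ i, (-(α i)).toNat ≤ m := fun i => Finset.le_sup (f := fun i => (-(α i)).toNat)
    (mem_univ i)
  have hmn₀ : m ≤ n₀ := by
    rw [hm]
    refine Finset.sup_le fun i _ => ?_
    have := hpos₀ i
    omega
  have hNr : (0 : ℝ) ≤ N := Nat.cast_nonneg N
  have hmc : (m : ℝ) ≤ c * N := by
    rcases (univ : Finset (Fin r)).eq_empty_or_nonempty with h | h
    · rw [hm, h]
      simp only [Finset.sup_empty, bot_eq_zero', Nat.cast_zero]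
      positivity
    · obtain ⟨i, _, hi⟩ := Finset.exists_mem_eq_sup _ h (fun i => (-(α i)).toNat)
      rw [hm, hi]
      have h1 := hα i
      have h2 : (((-(α i)).toNat : ℤ) : ℝ) ≤ |(α i : ℝ)| := by
        rcases le_total (-(α i)) 0 with h3 | h3
        · rw [Int.toNat_of_nonpos h3]
          simp
        · rw [Int.toNat_of_nonneg h3]
          push_cast
          exact neg_le_abs _
      have h3 : (((-(α i)).toNat : ℕ) : ℝ) = (((-(α i)).toNat : ℤ) : ℝ) := by push_cast; rfl
      rw [h3]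
      exact h2.trans h1
  set β : Fin r → ℕ := fun i => (α i + m).toNat with hβ
  have hβe : ∀ i, ((β i : ℕ) : ℤ) = α i + m := by
    intro i
    have := hmi i
    simp only [hβ]
    omega
  set N' : ℕ := N - m with hN'
  have hmN : 2 * m ≤ N := by
    have h1 : (2 * m : ℝ) ≤ N := by nlinarith
    exact_mod_cast h1
  have hN'2 : (N : ℝ) / 2 ≤ N' := by
    have h1 : N ≤ 2 * N' := by omega
    have h2 : (N : ℝ) ≤ 2 * N' := by exact_mod_cast h1
    linarith
  have hN'0 : N₀ I ≤ N' := by
    have h1 : N₀ I ≤ univ.sup N₀ := Finset.le_sup (mem_univ I)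
    omega
  have hβb : ∀ i, (β i : ℝ) ≤ δ I * N' := by
    intro i
    have h1 : ((β i : ℕ) : ℝ) = (α i : ℝ) + m := by
      have := hβe i
      exact_mod_cast this
    rw [h1]
    have h2 := (abs_le.mp (hα i)).2
    have h3 : (α i : ℝ) + m ≤ 2 * (c * N) := by linarith
    have h4 : 2 * (c * N) ≤ d / 2 * N := by
      have : c * N ≤ d / 4 * N := mul_le_mul_of_nonneg_right hc1 hNr
      linarith
    have h5 : d / 2 * N ≤ d * N' := by
      have : d * (N / 2) ≤ d * N' := mul_le_mul_of_nonneg_left hN'2 hdpos.le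
      linarith
    have h6 : d * N' ≤ δ I * N' := mul_le_mul_of_nonneg_right (hdle I) (Nat.cast_nonneg _)
    linarith
  have htoNat : ∀ n : ℕ, ∀ i, (((n + m : ℕ) : ℤ) + α i).toNat = n + β i := by
    intro n i
    have := hβe i
    omega
  have hn₁ : ∀ i, Squarefree ((n₀ - m) + β i) := by
    intro i
    have h1 := hsq₀ i
    have h2 : ((n₀ : ℤ) + α i).toNat = (n₀ - m) + β i := by
      have := htoNat (n₀ - m) i
      rwa [Nat.sub_add_cancel hmn₀] at this
    rwa [h2] at h1
  have hPval : ∀ n : ℕ, (∀ i, Squarefree (n + β i)) →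
      P α ε (n + m) = ∏ i ∈ I, ArithmeticFunction.moebius (n + β i) := by
    intro n hn
    unfold P
    rw [hI, Finset.prod_filter]
    refine Finset.prod_congr rfl fun i _ => ?_
    rw [htoNat n i]
    split_ifs with h
    · rw [h, pow_one]
    · have h2 := (hε i).resolve_left h
      rw [h2]
      exact ArithmeticFunction.moebius_sq_eq_one_of_squarefree (hn i)
  have hcount : ∀ σ : ℤ, (σ = 1 ∨ σ = -1) →
      c * N ≤ (((Finset.Icc 1 N).filter fun n => n % q = b % q ∧ P α ε n = σ).card : ℝ) := by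
    intro σ hσ
    have h1 := hmain I hodd N' hN'0 β hβb (n₀ - m) hn₁ σ hσ
    have h2 : ((Icc 1 N').filter (fun n => n % q = (n₀ - m) % q ∧ (∀ i, Squarefree (n + β i)) ∧
        ∏ i ∈ I, ArithmeticFunction.moebius (n + β i) = σ)).card ≤
        ((Finset.Icc 1 N).filter fun n => n % q = b % q ∧ P α ε n = σ).card := by
      apply Finset.card_le_card_of_injOn (fun n => n + m)
      · intro n hn
        rw [Finset.mem_coe, mem_filter, mem_Icc] at hn
        rw [Finset.mem_coe, mem_filter, mem_Icc]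
        obtain ⟨⟨hn1, hn2⟩, hn3, hn4, hn5⟩ := hn
        have g1 : 1 ≤ n + m := by omega
        have g2 : n + m ≤ N := by omega
        refine ⟨⟨g1, g2⟩, ?_, ?_⟩
        · rw [← hn₀q]
          have h3 : n + m ≡ (n₀ - m) + m [MOD q] := Nat.ModEq.add_right m hn3
          rw [Nat.sub_add_cancel hmn₀] at h3
          exact h3
        · simp only
          rw [hPval n hn4]
          exact hn5
      · intro n _ n' _ h
        simp only at h
        omega
    have h3 : (((Icc 1 N').filter (fun n => n % q = (n₀ - m) % q ∧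
        (∀ i, Squarefree (n + β i)) ∧
        ∏ i ∈ I, ArithmeticFunction.moebius (n + β i) = σ)).card : ℝ) ≤
        (((Finset.Icc 1 N).filter fun n => n % q = b % q ∧ P α ε n = σ).card : ℝ) := by
      exact_mod_cast h2
    have h4 : c * N ≤ δ I * N' := by
      have h5 : c * N ≤ d / 4 * N := mul_le_mul_of_nonneg_right hc1 hNr
      have h6 : d * (N / 2) ≤ d * N' := mul_le_mul_of_nonneg_left hN'2 hdpos.le
      have h7 : d * N' ≤ δ I * N' := mul_le_mul_of_nonneg_right (hdle I) (Nat.cast_nonneg _)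
      nlinarith
    linarith
  refine ⟨hcount, ?_⟩
  have hfil : ∀ σ : ℤ, ((Finset.Icc 1 N).filter (fun n => n % q = b % q)).filter
      (fun n => P α ε n = σ) = (Finset.Icc 1 N).filter fun n => n % q = b % q ∧ P α ε n = σ := by
    intro σ
    rw [Finset.filter_filter]
  have h := sum_le ((Finset.Icc 1 N).filter (fun n => n % q = b % q)) (fun n => P α ε n)
    (P_values α ε) (c * N)
    (by rw [hfil]; exact hcount 1 (Or.inl rfl)) (by rw [hfil]; exact hcount (-1) (Or.inr rfl))
  linarith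

end Pool.Agent.Results.MP_c59857_nt.OddOrderUniform
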