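import Pool.Agent.W93.LM8

/-!
# Autocorrelations of the Möbius function with a shift with random digits

The exponential sum bounds for the Möbius function (Davenport's theorem with arbitrary powers of the
logarithm) are from the starting files (`Pool.Agent.H807R2.Dav`, `Pool.Agent.H373R2.T7`).
-/

set_option autoImplicit false

namespace Pool.Agent.Results.MP_c59857_nt.RandomDigitShifts

open Finset

/-- The Möbius function on the integers, `0` at the integers `m ≤ 0`, with complex values. -/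
noncomputable def mu (m : ℤ) : ℂ := ((ArithmeticFunction.moebius m.toNat : ℤ) : ℂ)

/-- The integer `c + d 0 + d 1 * b + ... + d (k - 1) * b ^ (k - 1)`. -/
def value (b : ℕ) (c : ℤ) {k : ℕ} (d : Fin k → ℕ) : ℤ := c + ∑ j, (d j : ℤ) * (b : ℤ) ^ (j : ℕ)

open Classical in
/-- The probability of the event `E` if the digits `d j`, for `j < k`, are chosen independently of each
other from `{0, ..., H - 1}`, and `d j` is equal to `a` with probability `w j a`. -/
noncomputable def Prob (H k : ℕ) (w : ℕ → ℕ → ℝ) (E : (Fin k → ℕ) → Prop) : ℝ :=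
  ∑ d ∈ Fintype.piFinset (fun _ : Fin k => range H), if E d then ∏ j : Fin k, w j (d j) else 0

/-- Let `b ≥ 2`, `H`, `B`, `K`, `U` and `η > 0` be fixed and let `k` be large. Let the digits `d j` (`j < k`)
be independent random elements of `{0, ..., H - 1}` with arbitrary distributions, none of which takes a
value with a probability larger than `1 - η`, and let `c` be an arbitrary integer with `|c| ≤ B b ^ k`.
Let `g l : ℕ → ℂ`, where `l` ranges over at most `k ^ K` indices, be arbitrary functions bounded by `1`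
(for example products `∏ i, μ (n + α i) ^ ε i` with arbitrary shifts `α i` and exponents
`ε i ∈ {1, 2}`). Then, with a probability of at least `1 - 1 / k ^ U`, the shift
`α = c + ∑ j, d j * b ^ j` satisfies `|∑ n ≤ N, g l n * μ (n + α)| ≤ b ^ k / k ^ U` for all `l` and all
`N ≤ B b ^ k`. -/
theorem result (b H B K U : ℕ) (hb : 2 ≤ b) (η : ℝ) (hη : 0 < η) :
    ∃ k₀ : ℕ, ∀ k : ℕ, k₀ ≤ k → ∀ w : ℕ → ℕ → ℝ,
      (∀ j < k, (∀ a, 0 ≤ w j a ∧ w j a ≤ 1 - η) ∧ ∑ a ∈ range H, w j a = 1) →
      ∀ c : ℤ, |c| ≤ B * (b : ℤ) ^ k →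
      ∀ L : ℕ, L ≤ k ^ K → ∀ g : Fin L → ℕ → ℂ, (∀ l n, ‖g l n‖ ≤ 1) →
        Prob H k w (fun d => ¬ ∀ l, ∀ N : ℕ, N ≤ B * b ^ k →
          ‖∑ n ∈ Icc 1 N, g l n * mu (n + value b c d)‖ ≤ (b : ℝ) ^ k / (k : ℝ) ^ U) ≤
          1 / (k : ℝ) ^ U := by
  classical
  rcases lt_or_ge 1 η with hη1 | hη1
  · refine ⟨1, fun k hk w hw _ _ _ _ _ _ => ?_⟩
    exfalso
    obtain ⟨h1, h2⟩ := (hw 0 (by omega)).1 0
    linarith
  obtain ⟨k₀, h0⟩ := Pool.Agent.W93.LM.lm_prob b H B hb η hη hη1 Pool.Agent.H373R2.T7.muC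
    Pool.Agent.W93.LM.nice_muC K U
  refine ⟨k₀ + 1, fun k hk w hw c hc L hL g hg => ?_⟩
  have hk1 : (1 : ℝ) ≤ (k : ℝ) ^ K := one_le_pow₀ (by exact_mod_cast (by omega : 1 ≤ k))
  have h1 := h0 k (by omega) w (fun j hj a => ((hw j hj).1 a).1) (fun j hj a => ((hw j hj).1 a).2)
    (fun j hj => (hw j hj).2) c hc L (by exact_mod_cast hL) (fun _ => 1)
    (fun l => if h : l < L then g ⟨l, h⟩ else fun _ => 0) (fun _ _ => le_rfl) (by
      intro l hl n _ _
      simp only [hl, dif_pos]
      exact (hg _ n).trans hk1)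
    (fun d => ¬ ∀ l, ∀ N : ℕ, N ≤ B * b ^ k →
          ‖∑ n ∈ Icc 1 N, g l n * mu (n + value b c d)‖ ≤ (b : ℝ) ^ k / (k : ℝ) ^ U) (by
      intro d hd
      push Not at hd
      obtain ⟨l, N, hN, h2⟩ := hd
      refine ⟨l, l.2, N, by rw [one_mul]; exact hN, lt_of_lt_of_eq h2 ?_⟩
      simp only [l.2, dif_pos]
      congr 1
      apply sum_congr rfl
      intro n _
      congr 1
      have e1 : ((1 * n : ℕ) : ℤ) + (c + (Pool.Agent.W93.RD.val b d : ℤ)) = (n : ℤ) + value b c d := by
        unfold value Pool.Agent.W93.RD.val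
        push_cast
        ring
      rw [e1]
      unfold Pool.Agent.H373R2.T7.exI mu
      split_ifs with h3
      · rfl
      · rw [Int.toNat_of_nonpos (by omega)]
        simp)
  refine le_trans (le_of_eq ?_) h1
  unfold Prob Pool.Agent.W93.RD.Str Pool.Agent.W93.RD.pw
  apply sum_congr rfl
  intro d _
  split_ifs <;> rfl

end Pool.Agent.Results.MP_c59857_nt.RandomDigitShifts
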