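import Pool.Agent.W208.TL.Chg

set_option autoImplicit false

namespace Pool.Agent.Results.MP_c59857_nt.SmoothParts

open Finset Filter

/-- the `y`-smooth part of `n` -/
noncomputable def smoothPart (y n : ℕ) : ℕ :=
  ∏ p ∈ (Ioc 0 y).filter Nat.Prime, p ^ n.factorization p

theorem result (k a h0 : ℕ) (h : Fin k → ℕ) (hk : 1 ≤ k) (ha : 1 ≤ a)
    (hinj : Function.Injective h) (hne : ∀ j, h j ≠ h0) (ε : ℝ) (hε : 0 < ε) :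
    ∃ A X0 : ℕ, 1 ≤ A ∧ ∀ X : ℕ, X0 ≤ X → ∀ y : ℕ, y ^ A ≤ X →
      ∀ Φ : (Fin k → ℕ) → ℂ, (∀ d, ‖Φ d‖ ≤ 1) →
        ‖∑ n ∈ Ioc 0 X, ((ArithmeticFunction.moebius (a * n + h0) : ℤ) : ℂ) *
          Φ (fun j => smoothPart y (a * n + h j))‖ ≤ ε * X := by
  obtain ⟨A, hA, H⟩ := Pool.Agent.W208.TL.coreA Pool.Agent.W208.TL.ST_all k a h0 h hk ha hinj hne
    ε hε
  obtain ⟨X0, hX0⟩ := H _ Pool.Agent.W15.TL.kf_mob
    (fun q r hq => (Pool.Agent.W597.TL.means q r hq).2)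
  exact ⟨A, X0, hA, hX0⟩

end Pool.Agent.Results.MP_c59857_nt.SmoothParts
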